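import Mathlib
import Pool.Agent.Helper639.ForceCH
import Pool.Agent.R820.QCGuess

/-!
# Recursion on `ω₁`, guessing pairs, and a family of reals concentrated on the finite sets
-/

set_option autoImplicit false

namespace Pool.Agent.R820.ES

open Set Filter Topology
open Pool.Agent.Helper639.ForceCH (Om countable_Iio exists_bound)
open Pool.Agent.R820.QC (Diamond exists_gt_image isClub_closure countable_Iio' exists_bound_set)

/-- recursion on `ω₁` -/
theorem exists_rec {T : Type} (t₀ : T) (P : Om → (Om → T) → T → Prop)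
    (hloc : ∀ α f g t, (∀ β < α, f β = g β) → P α f t → P α g t)
    (hex : ∀ α f, (∀ β < α, P β f (f β)) → ∃ t, P α f t) : ∃ f, ∀ α, P α f (f α) := by
  classical
  let F : ∀ α : Om, (∀ β : Om, β < α → T) → T := fun α ih =>
    if h : ∃ t, P α (fun β => if h : β < α then ih β h else t₀) t then h.choose else t₀
  let f : Om → T := (wellFounded_lt (α := Om)).fix F
  have hf : ∀ α, f α = F α fun β _ => f β := fun α => WellFounded.fix_eq _ _ _
  refine ⟨f, fun α => ?_⟩
  induction α using (wellFounded_lt (α := Om)).induction with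
  | _ α ih =>
    let f' : Om → T := fun β => if β < α then f β else t₀
    have hf' : ∀ β < α, f' β = f β := fun β hβ => if_pos hβ
    have h1 : ∃ t, P α f' t := by
      apply hex
      intro β hβ
      rw [hf' β hβ]
      refine hloc β f f' _ (fun δ hδ => (hf' δ (hδ.trans hβ)).symm) (ih β hβ)
    have h2 : f α = h1.choose := by
      rw [hf α]
      change (if h : ∃ t, P α (fun β => if h : β < α then f β else t₀) t then h.choose else t₀) = _
      have h3 : (fun β => if h : β < α then f β else t₀) = f' := by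
        funext β
        by_cases hβ : β < α <;> simp [f', hβ]
      simp only [h3]
      rw [dif_pos h1]
    rw [h2]
    exact hloc α f' f _ hf' h1.choose_spec

lemma uncountable_Ioi (a : Om) : ¬ (Ioi a).Countable := by
  intro h
  obtain ⟨b, hb⟩ := exists_bound_set h
  obtain ⟨c, hc⟩ := exists_gt (max a b)
  exact absurd (hb c ((le_max_left _ _).trans_lt hc)) (not_lt.2 ((le_max_right _ _).trans hc.le))

lemma not_countable_of_unbounded {S : Set Om} (h : ∀ a, ∃ b ∈ S, a < b) : ¬ S.Countable := by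
  intro h'
  obtain ⟨b, hb⟩ := exists_bound_set h'
  obtain ⟨c, hc, hc'⟩ := h b
  exact absurd (hb c hc) (not_lt.2 hc'.le)

lemma unbounded_of_not_countable {S : Set Om} (h : ¬ S.Countable) (a : Om) : ∃ b ∈ S, a < b := by
  by_contra hcon
  push Not at hcon
  apply h
  refine ((countable_Iio' a).insert a).mono fun b hb => ?_
  rcases (hcon b hb).lt_or_eq with h1 | h1
  · exact Or.inr h1
  · exact Or.inl h1

/-- guessing two sets at the same time -/
theorem exists_guess_pair (hd : Diamond) : ∃ CC DD : Om → Set Om,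
    (∀ γ, CC γ ⊆ Iio γ) ∧ (∀ γ, DD γ ⊆ Iio γ) ∧
    ∀ (C D : Set Om) (K : Om → Prop), QC.IsClub K →
      ∃ γ, K γ ∧ CC γ = C ∩ Iio γ ∧ DD γ = D ∩ Iio γ := by
  classical
  obtain ⟨A, hA⟩ := hd
  obtain ⟨E, hE⟩ : ∃ E : Om × Bool → Om, Function.Injective E := by
    have hOm : Cardinal.mk Om = Cardinal.aleph 1 := by simp
    have h0 : Cardinal.aleph0 ≤ Cardinal.mk Om := by rw [hOm]; exact Cardinal.aleph0_le_aleph 1
    have h1 : Cardinal.mk (Om × Bool) = Cardinal.mk Om := by
      simp only [Cardinal.mk_prod, Cardinal.lift_id]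
      exact Cardinal.mul_eq_left h0 ((Cardinal.mk_le_aleph0).trans h0) (by simp)
    obtain ⟨E⟩ := Cardinal.eq.1 h1
    exact ⟨E, E.injective⟩
  refine ⟨fun γ => {b | b < γ ∧ A γ (E (b, true))}, fun γ => {b | b < γ ∧ A γ (E (b, false))},
    fun γ b hb => hb.1, fun γ b hb => hb.1, fun C D K hK => ?_⟩
  let S : Om → Prop := fun b => (∃ c ∈ C, E (c, true) = b) ∨ ∃ d ∈ D, E (d, false) = b
  let f : Om → Om := fun b => max (E (b, true)) (E (b, false))
  have hK' : QC.IsClub fun a => K a ∧ ∀ b < a, f b < a := by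
    -- intersection of two clubs
    have h1 := isClub_closure fun b => max (f b) (hK.1 b).choose
    constructor
    · intro a
      obtain ⟨b, hb, hb1, hb2⟩ := h1.1 a
      refine ⟨b, hb, ?_, fun c hc => (le_max_left _ _).trans_lt (hb2 c hc)⟩
      refine hK.2 b hb1 fun c hc => ⟨(hK.1 c).choose, ⟨(hK.1 c).choose_spec.1,
        (le_max_right _ _).trans_lt (hb2 c hc)⟩, (hK.1 c).choose_spec.2⟩
    · intro a hne h
      refine ⟨hK.2 a hne fun b hb => ?_, fun b hb => ?_⟩
      · obtain ⟨c, hc, hc'⟩ := h b hb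
        exact ⟨c, hc, hc'.1⟩
      · obtain ⟨c, ⟨hc1, hc2⟩, hc'⟩ := h b hb
        exact (hc'.2 b hc1).trans hc2
  obtain ⟨γ, ⟨hγ, hγ'⟩, hγ2⟩ := hA S _ hK'
  refine ⟨γ, hγ, ?_, ?_⟩
  · ext b
    simp only [mem_ofPred_eq, mem_inter_iff, mem_Iio]
    constructor
    · rintro ⟨h1, h2⟩
      refine ⟨?_, h1⟩
      rcases (hγ2 _ ((le_max_left _ _).trans_lt (hγ' b h1))).2 h2 with ⟨c, hc, hc'⟩ | ⟨c, hc, hc'⟩
      · have := hE hc'
        simp only [Prod.mk.injEq, and_true] at this
        exact this ▸ hc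
      · have := hE hc'
        simp at this
    · rintro ⟨h1, h2⟩
      exact ⟨h2, (hγ2 _ ((le_max_left _ _).trans_lt (hγ' b h2))).1 (Or.inl ⟨b, h1, rfl⟩)⟩
  · ext b
    simp only [mem_ofPred_eq, mem_inter_iff, mem_Iio]
    constructor
    · rintro ⟨h1, h2⟩
      refine ⟨?_, h1⟩
      rcases (hγ2 _ ((le_max_right _ _).trans_lt (hγ' b h1))).2 h2 with ⟨c, hc, hc'⟩ | ⟨c, hc, hc'⟩
      · have := hE hc'
        simp at this
      · have := hE hc'
        simp only [Prod.mk.injEq, and_true] at this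
        exact this ▸ hc
    · rintro ⟨h1, h2⟩
      exact ⟨h2, (hγ2 _ ((le_max_right _ _).trans_lt (hγ' b h2))).1 (Or.inr ⟨b, h1, rfl⟩)⟩

/-- every set in `T` which has the cardinality of the continuum is enumerated in type `ω₁` -/
theorem exists_surj (hd : Diamond) : ∃ e : Om → (Finset ℕ → ℕ), Function.Surjective e := by
  classical
  obtain ⟨A, hA⟩ := hd
  obtain ⟨em, hem⟩ := Pool.Agent.Helper639.ForceCH.exists_emb
  obtain ⟨a0, ha0⟩ := exists_bound em
  have h1 : Function.Surjective fun a : Om => ({n | A a (em n)} : Set ℕ) := by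
    intro x
    have hK : QC.IsClub fun a => a0 ≤ a := by
      constructor
      · intro a
        obtain ⟨b, hb⟩ := exists_gt (max a a0)
        exact ⟨b, (le_max_left _ _).trans_lt hb, (le_max_right _ _).trans hb.le⟩
      · intro a hne h
        obtain ⟨b, hb⟩ := hne
        obtain ⟨c, hc, hc'⟩ := h b hb
        exact hc'.trans hc.2.le
    obtain ⟨γ, hγ, hγ'⟩ := hA (fun b => ∃ n ∈ x, em n = b) _ hK
    refine ⟨γ, ?_⟩
    ext n
    simp only [mem_ofPred_eq]
    rw [← hγ' (em n) ((ha0 n).trans_le hγ)]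
    constructor
    · rintro ⟨m, hm, hm'⟩
      exact hem hm' ▸ hm
    · intro hn
      exact ⟨n, hn, rfl⟩
  have h2 : Cardinal.mk (Set ℕ) = Cardinal.mk (Finset ℕ → ℕ) := by
    simp
  obtain ⟨E⟩ := Cardinal.eq.1 h2
  exact ⟨fun a => E {n | A a (em n)}, fun x => by
    obtain ⟨a, ha⟩ := h1 (E.symm x)
    exact ⟨a, by simp only at ha ⊢; rw [ha]; simp⟩⟩

lemma dense_of {D : Set (ℕ → Bool)} (h : ∀ (t : ℕ → Bool) (N : ℕ), ∃ t' ∈ D, ∀ n < N, t' n = t n) :
    Dense D := by
  intro t
  rw [mem_closure_iff_nhds]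
  intro U hU
  rw [nhds_pi, Filter.mem_pi] at hU
  obtain ⟨I, hI, V, hV, hVU⟩ := hU
  obtain ⟨N, hN⟩ := hI.bddAbove
  obtain ⟨t', ht', h'⟩ := h t (N + 1)
  refine ⟨t', hVU ?_, ht'⟩
  intro n hn
  rw [h' n (Nat.lt_succ_of_le (hN hn))]
  exact mem_of_mem_nhds (hV n)

/-- The family of reals. -/
theorem exists_family (hd : Diamond) : ∃ s : Om → ℕ → Bool,
    (∀ α β, α ≠ β → ∃ n, s α n = true ∧ s β n = false) ∧
    (∀ C : Set Om, ¬ C.Countable → ∃ F : Finset ℕ, ∀ k : ℕ,
      ¬ {x ∈ C | ∀ n < k, (s x n = true ↔ n ∈ F)}.Countable) ∧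
    (∀ (F : Finset ℕ) (γ : Om), ∃ β, γ < β ∧ ∀ n ∈ F, s β n = true) := by
  classical
  obtain ⟨e, he⟩ := exists_surj hd
  -- unboundedly many indices for each finite set
  obtain ⟨φ, hφ⟩ : ∃ φ : Om → Finset ℕ, ∀ F γ, ∃ β, γ < β ∧ φ β = F := by
    have hOm : Cardinal.mk Om = Cardinal.aleph 1 := by simp
    have h0 : Cardinal.aleph0 ≤ Cardinal.mk Om := by rw [hOm]; exact Cardinal.aleph0_le_aleph 1
    have h1 : Cardinal.mk Om = Cardinal.mk (Om × Finset ℕ) := by
      simp only [Cardinal.mk_prod, Cardinal.lift_id]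
      exact (Cardinal.mul_eq_left h0 ((Cardinal.mk_le_aleph0).trans h0)
        (Cardinal.mk_ne_zero _)).symm
    obtain ⟨E⟩ := Cardinal.eq.1 h1
    refine ⟨fun a => (E a).2, fun F γ => ?_⟩
    have h2 : ¬ (range fun a : Om => E.symm (a, F)).Countable := by
      intro h
      have h3 : Function.Injective fun a : Om => E.symm (a, F) := by
        intro a b hab
        have := E.symm.injective hab
        simpa using this
      have h4 : (univ : Set Om).Countable := by
        rw [← image_univ] at h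
        exact (countable_of_injective_of_countable_image (h3.injOn) h)
      exact uncountable_Ioi γ (h4.mono (subset_univ _))
    obtain ⟨b, ⟨a, rfl⟩, hb⟩ := unbounded_of_not_countable h2 γ
    exact ⟨_, hb, by simp⟩
  let P : Om → (Om → ℕ → Bool) → (ℕ → Bool) → Prop := fun α f t =>
    (∀ m, ∃ n ≥ m, t n = true) ∧ (∀ m, ∃ n ≥ m, t n = false) ∧
    (∀ n ∈ φ α, t n = true) ∧
    (∀ β < α, (∃ n, f β n = true ∧ t n = false) ∧ (∃ n, t n = true ∧ f β n = false) ∧
      ∃ G : Finset ℕ, ∀ n < e β G, (t n = true ↔ n ∈ G))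
  obtain ⟨s, hs⟩ := exists_rec (fun _ => true) P (by
    rintro α f g t hfg ⟨h1, h2, h3, h4⟩
    refine ⟨h1, h2, h3, fun β hβ => ?_⟩
    rw [← hfg β hβ]
    exact h4 β hβ) (by
    intro α f hf
    have hc : Countable {b : Om // b < α} := countable_Iio α
    let D1 : {b : Om // b < α} → Set (ℕ → Bool) := fun β => {t | ∃ n, f β.1 n = true ∧ t n = false}
    let D2 : {b : Om // b < α} → Set (ℕ → Bool) := fun β => {t | ∃ n, t n = true ∧ f β.1 n = false}
    let D3 : {b : Om // b < α} → Set (ℕ → Bool) := fun β =>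
      {t | ∃ G : Finset ℕ, ∀ n < e β.1 G, (t n = true ↔ n ∈ G)}
    let D4 : ℕ → Set (ℕ → Bool) := fun m => {t | ∃ n ≥ m, t n = true}
    let D5 : ℕ → Set (ℕ → Bool) := fun m => {t | ∃ n ≥ m, t n = false}
    have hev : ∀ (n : ℕ) (b : Bool), IsOpen {t : ℕ → Bool | t n = b} := fun n b =>
      (isOpen_discrete ({b} : Set Bool)).preimage (f := fun t : ℕ → Bool => t n)
        (continuous_apply n)
    have o1 : ∀ β, IsOpen (D1 β) := by
      intro β
      have : D1 β = ⋃ n, ⋃ (_ : f β.1 n = true), {t : ℕ → Bool | t n = false} := by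
        ext t; simp [D1]
      rw [this]
      exact isOpen_iUnion fun n => isOpen_iUnion fun _ => hev n _
    have o2 : ∀ β, IsOpen (D2 β) := by
      intro β
      have : D2 β = ⋃ n, ⋃ (_ : f β.1 n = false), {t : ℕ → Bool | t n = true} := by
        ext t; simp [D2, and_comm]
      rw [this]
      exact isOpen_iUnion fun n => isOpen_iUnion fun _ => hev n _
    have o3 : ∀ β, IsOpen (D3 β) := by
      intro β
      have : D3 β = ⋃ G : Finset ℕ, ⋂ n ∈ Iio (e β.1 G),
          {t : ℕ → Bool | t n = decide (n ∈ G)} := by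
        ext t
        simp only [D3, mem_ofPred_eq, mem_iUnion, mem_iInter, mem_Iio]
        refine exists_congr fun G => forall_congr' fun n => forall_congr' fun _ => ?_
        by_cases h : n ∈ G <;> simp [h]
      rw [this]
      refine isOpen_iUnion fun G => (finite_Iio _).isOpen_biInter fun n _ => hev n _
    have o4 : ∀ m, IsOpen (D4 m) := by
      intro m
      have : D4 m = ⋃ n, ⋃ (_ : n ≥ m), {t : ℕ → Bool | t n = true} := by
        ext t; simp [D4]
      rw [this]
      exact isOpen_iUnion fun n => isOpen_iUnion fun _ => hev n _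
    have o5 : ∀ m, IsOpen (D5 m) := by
      intro m
      have : D5 m = ⋃ n, ⋃ (_ : n ≥ m), {t : ℕ → Bool | t n = false} := by
        ext t; simp [D5]
      rw [this]
      exact isOpen_iUnion fun n => isOpen_iUnion fun _ => hev n _
    have d1 : ∀ β, Dense (D1 β) := by
      intro β
      refine dense_of fun t N => ?_
      obtain ⟨n, hn, hn'⟩ := (hf β.1 β.2).1 N
      exact ⟨Function.update t n false, ⟨n, hn', by simp⟩, fun k hk =>
        Function.update_of_ne (by omega) _ _⟩
    have d2 : ∀ β, Dense (D2 β) := by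
      intro β
      refine dense_of fun t N => ?_
      obtain ⟨n, hn, hn'⟩ := (hf β.1 β.2).2.1 N
      exact ⟨Function.update t n true, ⟨n, by simp, hn'⟩, fun k hk =>
        Function.update_of_ne (by omega) _ _⟩
    have d3 : ∀ β, Dense (D3 β) := by
      intro β
      refine dense_of fun t N => ?_
      let G : Finset ℕ := (Finset.range N).filter fun n => t n = true
      refine ⟨fun n => decide (n ∈ G), ⟨G, fun n _ => by simp⟩, fun n hn => ?_⟩
      by_cases h : t n = true
      · simp [G, h, hn]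
      · simp [G, h]
    have d4 : ∀ m, Dense (D4 m) := by
      intro m
      refine dense_of fun t N => ?_
      exact ⟨Function.update t (max m N) true, ⟨max m N, le_max_left _ _, by simp⟩, fun k hk =>
        Function.update_of_ne (by have := le_max_right m N; omega) _ _⟩
    have d5 : ∀ m, Dense (D5 m) := by
      intro m
      refine dense_of fun t N => ?_
      exact ⟨Function.update t (max m N) false, ⟨max m N, le_max_left _ _, by simp⟩, fun k hk =>
        Function.update_of_ne (by have := le_max_right m N; omega) _ _⟩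
    let I : Type := ({b : Om // b < α} × Fin 3) ⊕ (ℕ × Bool)
    let D : I → Set (ℕ → Bool) := fun i => match i with
      | Sum.inl (β, j) => if j = 0 then D1 β else if j = 1 then D2 β else D3 β
      | Sum.inr (m, b) => if b then D4 m else D5 m
    have hD : Dense (⋂ i, D i) := by
      apply dense_iInter_of_isOpen
      · rintro (⟨β, j⟩ | ⟨m, b⟩)
        · simp only [D]
          split_ifs
          exacts [o1 β, o2 β, o3 β]
        · simp only [D]
          split_ifs
          exacts [o4 m, o5 m]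
      · rintro (⟨β, j⟩ | ⟨m, b⟩)
        · simp only [D]
          split_ifs
          exacts [d1 β, d2 β, d3 β]
        · simp only [D]
          split_ifs
          exacts [d4 m, d5 m]
    have hO : IsOpen {t : ℕ → Bool | ∀ n ∈ φ α, t n = true} := by
      have : {t : ℕ → Bool | ∀ n ∈ φ α, t n = true} = ⋂ n ∈ (φ α : Set ℕ),
          {t : ℕ → Bool | t n = true} := by
        ext t; simp
      rw [this]
      exact (φ α).finite_toSet.isOpen_biInter fun n _ => hev n _
    obtain ⟨t, ht, ht'⟩ := hD.inter_open_nonempty _ hO ⟨fun _ => true, fun _ _ => rfl⟩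
    rw [mem_iInter] at ht'
    refine ⟨t, fun m => ?_, fun m => ?_, ht, fun β hβ => ⟨?_, ?_, ?_⟩⟩
    · have := ht' (Sum.inr (m, true))
      simpa [D, D4] using this
    · have := ht' (Sum.inr (m, false))
      simpa [D, D5] using this
    · have := ht' (Sum.inl (⟨β, hβ⟩, 0))
      simpa [D, D1] using this
    · have := ht' (Sum.inl (⟨β, hβ⟩, 1))
      simpa [D, D2] using this
    · have := ht' (Sum.inl (⟨β, hβ⟩, 2))
      simpa [D, D3] using this)
  refine ⟨s, fun α β hαβ => ?_, fun C hC => ?_, fun F γ => ?_⟩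
  · rcases lt_or_gt_of_ne hαβ with h | h
    · exact ((hs β).2.2.2 α h).1
    · exact ((hs α).2.2.2 β h).2.1
  · by_contra hcon
    push Not at hcon
    choose k hk using hcon
    obtain ⟨b0, hb0⟩ := he k
    apply hC
    have h1 : C ⊆ Iic b0 ∪ ⋃ G : Finset ℕ, {x ∈ C | ∀ n < k G, (s x n = true ↔ n ∈ G)} := by
      intro x hx
      rcases le_or_gt x b0 with h | h
      · exact Or.inl h
      · obtain ⟨G, hG⟩ := ((hs x).2.2.2 b0 h).2.2
        rw [hb0] at hG
        exact Or.inr (mem_iUnion.2 ⟨G, hx, hG⟩)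
    refine Countable.mono h1 (Countable.union ?_ (countable_iUnion hk))
    rw [← Iio_insert]
    exact (countable_Iio' b0).insert b0
  · obtain ⟨β, hβ, hβ'⟩ := hφ F γ
    exact ⟨β, hβ, fun n hn => (hs β).2.2.1 n (hβ' ▸ hn)⟩

end Pool.Agent.R820.ES
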