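import Mathlib
import Pool.Agent.R820.ES.Base

/-!
# The inductive step of the construction
-/

set_option autoImplicit false

namespace Pool.Agent.R820.ES

open Set
open Pool.Agent.Helper639.ForceCH (Om countable_Iio exists_bound)
open Pool.Agent.R820.QC (Diamond exists_gt_image isClub_closure countable_Iio' exists_bound_set)

/-- the data at one point: its neighbourhoods, a clopen set of smaller points, a promise -/
abbrev Dat : Type := (ℕ → Set Om) × Set Om × Option (Finset ℕ)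

/-- the points whose real agrees with the finite set `F` up to `k` -/
def box (s : Om → ℕ → Bool) (F : Finset ℕ) (k : ℕ) : Set Om :=
  {x | ∀ n < k, (s x n = true ↔ n ∈ F)}

lemma box_anti (s : Om → ℕ → Bool) (F : Finset ℕ) {k l : ℕ} (h : k ≤ l) : box s F l ⊆ box s F k :=
  fun _ hx n hn => hx n (hn.trans_le h)

/-- neighbourhoods -/
def nb (f : Om → Dat) (x : Om) (m : ℕ) : Set Om := (f x).1 m

/-- the clopen set -/
def vv (f : Om → Dat) (x : Om) : Set Om := (f x).2.1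

/-- the promise -/
def pr (f : Om → Dat) (x : Om) : Option (Finset ℕ) := (f x).2.2

/-- finite unions of generators -/
def Sm (f : Om → Dat) (Φ : Finset Om) : Set Om := ⋃ β ∈ Φ, (nb f β 0 ∪ vv f β)

variable (s : Om → ℕ → Bool) (CC DD : Om → Set Om)

/-- what is required at stage `γ` -/
structure Q (γ : Om) (f : Om → Dat) : Prop where
  shape : ∃ W : ℕ → Set Om,
    (∀ m, nb f γ m = {γ} ∪ ⋃ j, ⋃ (_ : m ≤ j), W j) ∧
    (∀ j, W j = ∅ ∨ ∃ β < γ, ∃ m, W j = nb f β m) ∧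
    (∀ β < γ, ∃ j₀, ∀ j ≥ j₀, Disjoint (W j) (nb f β 0 ∪ vv f β)) ∧
    (∃ j₀, ∀ j ≥ j₀, Disjoint (W j) (vv f γ)) ∧
    (∀ n, s γ n = false → ∃ j₀, ∀ j ≥ j₀, ∀ x ∈ W j, s x n = false) ∧
    (∀ i ≤ γ, ∀ F, pr f i = some F → (∀ n ∈ F, s γ n = true) → ∀ k m, ∃ j ≥ m,
      (W j ∩ (CC i ∩ box s F k)).Nonempty)
  pres : ∀ i ≤ γ, ∀ F, pr f i = some F → ∀ k, ∀ Φ : Finset Om, (∀ β ∈ Φ, β ≤ γ) →
    ¬ (CC i ∩ box s F k ⊆ Sm f Φ)
  prom : (∃ F, ∀ k, ∀ Φ : Finset Om, (∀ β ∈ Φ, β < γ) → ¬ (CC γ ∩ box s F k ⊆ Sm f Φ)) →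
    ∃ F, pr f γ = some F
  vsub : vv f γ ⊆ Iio γ
  vopen : ∀ x ∈ vv f γ, ∃ m, nb f x m ⊆ vv f γ
  vclosed : ∀ x < γ, x ∉ vv f γ → ∃ m, Disjoint (nb f x m) (vv f γ)
  pair : (∀ x < γ, x ∉ CC γ → ∃ m, Disjoint (nb f x m) (CC γ)) →
    (∀ x < γ, x ∉ DD γ → ∃ m, Disjoint (nb f x m) (DD γ)) → Disjoint (CC γ) (DD γ) →
    (∀ i ≤ γ, ∀ F, pr f i = some F → ∀ k, ∀ Φ : Finset Om, (∀ β ∈ Φ, β < γ) →
      ¬ (CC i ∩ box s F k ⊆ Sm f Φ ∪ CC γ)) → CC γ ⊆ vv f γ ∧ Disjoint (vv f γ) (DD γ)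

lemma nb_congr {f g : Om → Dat} {x : Om} (h : f x = g x) (m : ℕ) : nb f x m = nb g x m := by
  simp only [nb, h]

lemma vv_congr {f g : Om → Dat} {x : Om} (h : f x = g x) : vv f x = vv g x := by
  simp only [vv, h]

lemma pr_congr {f g : Om → Dat} {x : Om} (h : f x = g x) : pr f x = pr g x := by
  simp only [pr, h]

lemma Sm_congr {f g : Om → Dat} {Φ : Finset Om} (h : ∀ x ∈ Φ, f x = g x) : Sm f Φ = Sm g Φ := by
  simp only [Sm]
  refine iUnion₂_congr fun β hβ => ?_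
  rw [nb_congr (h β hβ), vv_congr (h β hβ)]

lemma Q_congr {γ : Om} {f g : Om → Dat} (h : ∀ x ≤ γ, f x = g x) (hQ : Q s CC DD γ f) :
    Q s CC DD γ g := by
  obtain ⟨W, h1, h2, h3, h4, h5, h6⟩ := hQ.shape
  refine ⟨⟨W, ?_, ?_, ?_, ?_, h5, ?_⟩, ?_, ?_, ?_, ?_, ?_, ?_⟩
  · intro m
    rw [← nb_congr (h γ le_rfl)]
    exact h1 m
  · intro j
    rcases h2 j with h2 | ⟨β, hβ, m, hm⟩
    · exact Or.inl h2
    · exact Or.inr ⟨β, hβ, m, by rw [← nb_congr (h β hβ.le)]; exact hm⟩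
  · intro β hβ
    rw [← nb_congr (h β hβ.le), ← vv_congr (h β hβ.le)]
    exact h3 β hβ
  · rw [← vv_congr (h γ le_rfl)]
    exact h4
  · intro i hi F hF
    rw [← pr_congr (h i hi)] at hF
    exact h6 i hi F hF
  · intro i hi F hF k Φ hΦ
    rw [← pr_congr (h i hi)] at hF
    rw [← Sm_congr fun x hx => h x (hΦ x hx)]
    exact hQ.pres i hi F hF k Φ hΦ
  · rintro ⟨F, hF⟩
    rw [← pr_congr (h γ le_rfl)]
    apply hQ.prom
    refine ⟨F, fun k Φ hΦ => ?_⟩
    rw [Sm_congr fun x hx => h x (hΦ x hx).le]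
    exact hF k Φ hΦ
  · rw [← vv_congr (h γ le_rfl)]
    exact hQ.vsub
  · rw [← vv_congr (h γ le_rfl)]
    intro x hx
    obtain ⟨m, hm⟩ := hQ.vopen x hx
    exact ⟨m, by rw [← nb_congr (h x (hQ.vsub hx).le)]; exact hm⟩
  · rw [← vv_congr (h γ le_rfl)]
    intro x hx hx'
    obtain ⟨m, hm⟩ := hQ.vclosed x hx hx'
    exact ⟨m, by rw [← nb_congr (h x hx.le)]; exact hm⟩
  · intro a1 a2 a3 a4
    rw [← vv_congr (h γ le_rfl)]
    refine hQ.pair ?_ ?_ a3 ?_
    · intro x hx hx'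
      obtain ⟨m, hm⟩ := a1 x hx hx'
      exact ⟨m, by rw [nb_congr (h x hx.le)]; exact hm⟩
    · intro x hx hx'
      obtain ⟨m, hm⟩ := a2 x hx hx'
      exact ⟨m, by rw [nb_congr (h x hx.le)]; exact hm⟩
    · intro i hi F hF k Φ hΦ
      rw [pr_congr (h i hi)] at hF
      rw [Sm_congr fun x hx => h x (hΦ x hx).le]
      exact a4 i hi F hF k Φ hΦ

/-! ### The space on an initial segment `D` -/

section facts

variable {s CC DD} {f : Om → Dat} {D : Set Om} (hD : ∀ x ∈ D, ∀ y < x, y ∈ D)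
  (H : ∀ x ∈ D, Q s CC DD x f)
include hD H

lemma mem_nb {x : Om} (hx : x ∈ D) (m : ℕ) : x ∈ nb f x m := by
  obtain ⟨W, h1, -⟩ := (H x hx).shape
  rw [h1]
  exact Or.inl rfl

lemma nb_anti {x : Om} (hx : x ∈ D) {m n : ℕ} (h : m ≤ n) : nb f x n ⊆ nb f x m := by
  obtain ⟨W, h1, -⟩ := (H x hx).shape
  rw [h1, h1]
  apply union_subset_union_right
  apply iUnion_subset
  intro j
  apply iUnion_subset
  intro hj
  exact subset_iUnion₂_of_subset j (h.trans hj) subset_rfl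

lemma nb_sub {x : Om} (hx : x ∈ D) (m : ℕ) : nb f x m ⊆ Iic x := by
  induction x using (wellFounded_lt (α := Om)).induction generalizing m with
  | _ x ih =>
    obtain ⟨W, h1, h2, -⟩ := (H x hx).shape
    rw [h1]
    apply union_subset
    · simp
    · apply iUnion_subset
      intro j
      apply iUnion_subset
      intro hj
      rcases h2 j with h | ⟨β, hβ, m', h⟩
      · rw [h]
        exact empty_subset _
      · rw [h]
        exact (ih β hβ (hD x hx β hβ) m').trans (Iic_subset_Iic.2 hβ.le)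

lemma nb_open {x : Om} (hx : x ∈ D) (m : ℕ) : ∀ y ∈ nb f x m, ∃ m', nb f y m' ⊆ nb f x m := by
  induction x using (wellFounded_lt (α := Om)).induction generalizing m with
  | _ x ih =>
    obtain ⟨W, h1, h2, -⟩ := (H x hx).shape
    intro y hy
    have hy' := hy
    rw [h1] at hy
    rcases hy with hy | hy
    · rw [mem_singleton_iff.1 hy]
      exact ⟨m, subset_rfl⟩
    · obtain ⟨j, hj⟩ := mem_iUnion.1 hy
      obtain ⟨hmj, hj⟩ := mem_iUnion.1 hj
      rcases h2 j with h | ⟨β, hβ, m', h⟩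
      · rw [h] at hj
        exact absurd hj (by simp)
      · rw [h] at hj
        obtain ⟨m2, hm2⟩ := ih β hβ (hD x hx β hβ) m' y hj
        refine ⟨m2, hm2.trans ?_⟩
        rw [h1, ← h]
        exact fun z hz => Or.inr (mem_iUnion₂.2 ⟨j, hmj, hz⟩)

lemma nb_disj_lt {x y : Om} (hx : x ∈ D) (hyx : y < x) (hy : y ∉ nb f x 0 → True) :
    ∃ m, Disjoint (nb f y 0) (nb f x m) := by
  obtain ⟨W, h1, h2, h3, -⟩ := (H x hx).shape
  obtain ⟨j0, hj0⟩ := h3 y hyx
  refine ⟨j0, ?_⟩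
  rw [h1, disjoint_union_right]
  constructor
  · rw [disjoint_singleton_right]
    intro h
    exact absurd (nb_sub hD H (hD x hx y hyx) 0 h) (not_le.2 hyx)
  · rw [disjoint_iUnion_right]
    intro j
    rw [disjoint_iUnion_right]
    intro hj
    exact ((hj0 j hj).mono_right subset_union_left).symm

lemma nb_closed {x : Om} (hx : x ∈ D) (m : ℕ) : ∀ y ∈ D, y ∉ nb f x m →
    ∃ m', Disjoint (nb f y m') (nb f x m) := by
  induction x using (wellFounded_lt (α := Om)).induction generalizing m with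
  | _ x ih =>
    intro y hyD hy
    rcases lt_trichotomy y x with hyx | hyx | hyx
    · obtain ⟨W, h1, h2, h3, -⟩ := (H x hx).shape
      obtain ⟨j0, hj0⟩ := h3 y hyx
      have key : ∀ j, m ≤ j → ∃ m', Disjoint (nb f y m') (W j) := by
        intro j hj
        rcases h2 j with h | ⟨β, hβ, m', h⟩
        · exact ⟨0, by rw [h]; exact disjoint_empty _⟩
        · rw [h]
          apply ih β hβ (hD x hx β hβ) m' y hyD
          intro hcon
          apply hy
          rw [h1]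
          exact Or.inr (mem_iUnion₂.2 ⟨j, hj, h ▸ hcon⟩)
      choose! g hg using key
      let M := (Finset.range j0).sup g
      refine ⟨M, ?_⟩
      rw [h1, disjoint_union_right]
      constructor
      · rw [disjoint_singleton_right]
        intro h
        exact absurd (nb_sub hD H hyD M h) (not_le.2 hyx)
      · rw [disjoint_iUnion_right]
        intro j
        rw [disjoint_iUnion_right]
        intro hj
        rcases lt_or_ge j j0 with h | h
        · exact (hg j hj).mono_left (nb_anti hD H hyD (Finset.le_sup (Finset.mem_range.2 h)))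
        · exact ((hj0 j h).mono_right (subset_union_left.trans' (nb_anti hD H hyD
            (Nat.zero_le M)))).symm
    · exact absurd (hyx ▸ mem_nb hD H hx m) hy
    · obtain ⟨m', hm'⟩ := nb_disj_lt hD H hyD hyx fun _ => trivial
      exact ⟨m', (hm'.mono_left (nb_anti hD H hx (Nat.zero_le m))).symm⟩

lemma nb_sep {x y : Om} (hx : x ∈ D) (hy : y ∈ D) (hxy : x ≠ y) :
    ∃ m m', Disjoint (nb f x m) (nb f y m') := by
  rcases lt_or_gt_of_ne hxy with h | h
  · obtain ⟨m, hm⟩ := nb_disj_lt hD H hy h fun _ => trivial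
    exact ⟨0, m, hm⟩
  · obtain ⟨m, hm⟩ := nb_disj_lt hD H hx h fun _ => trivial
    exact ⟨m, 0, hm.symm⟩

lemma vv_open {β : Om} (hβ : β ∈ D) : ∀ y ∈ vv f β, ∃ m, nb f y m ⊆ vv f β := (H β hβ).vopen

lemma vv_closed {β : Om} (hβ : β ∈ D) : ∀ y ∈ D, y ∉ vv f β →
    ∃ m, Disjoint (nb f y m) (vv f β) := by
  intro y hy hy'
  rcases lt_trichotomy y β with h | h | h
  · exact (H β hβ).vclosed y h hy'
  · subst h
    obtain ⟨W, h1, h2, h3, ⟨j0, hj0⟩, -⟩ := (H y hy).shape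
    refine ⟨j0, ?_⟩
    rw [h1, disjoint_union_left]
    refine ⟨disjoint_singleton_left.2 hy', ?_⟩
    rw [disjoint_iUnion_left]
    intro j
    rw [disjoint_iUnion_left]
    exact fun hj => hj0 j hj
  · obtain ⟨W, h1, h2, h3, -⟩ := (H y hy).shape
    obtain ⟨j0, hj0⟩ := h3 β h
    refine ⟨j0, ?_⟩
    rw [h1, disjoint_union_left]
    refine ⟨disjoint_singleton_left.2 hy', ?_⟩
    rw [disjoint_iUnion_left]
    intro j
    rw [disjoint_iUnion_left]
    exact fun hj => (hj0 j hj).mono_right subset_union_right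

lemma real_open {y : Om} (hy : y ∈ D) {n : ℕ} (hn : s y n = false) :
    ∃ m, ∀ x ∈ nb f y m, s x n = false := by
  obtain ⟨W, h1, h2, h3, h4, h5, -⟩ := (H y hy).shape
  obtain ⟨j0, hj0⟩ := h5 n hn
  refine ⟨j0, fun x hx => ?_⟩
  rw [h1] at hx
  rcases hx with hx | hx
  · rw [mem_singleton_iff.1 hx]
    exact hn
  · obtain ⟨j, hj⟩ := mem_iUnion.1 hx
    obtain ⟨hmj, hj⟩ := mem_iUnion.1 hj
    exact hj0 j hmj x hj

/-- `K` is relatively closed in `D` -/
lemma cl_union {K K' : Set Om} {y : Om} (hy : y ∈ D)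
    (h : ∃ m, Disjoint (nb f y m) K) (h' : ∃ m, Disjoint (nb f y m) K') :
    ∃ m, Disjoint (nb f y m) (K ∪ K') := by
  obtain ⟨m, hm⟩ := h
  obtain ⟨m', hm'⟩ := h'
  exact ⟨max m m', disjoint_union_right.2
    ⟨hm.mono_left (nb_anti hD H hy (le_max_left _ _)),
      hm'.mono_left (nb_anti hD H hy (le_max_right _ _))⟩⟩

lemma Sm_closed {Φ : Finset Om} (hΦ : ∀ β ∈ Φ, β ∈ D) {y : Om} (hy : y ∈ D) (hy' : y ∉ Sm f Φ) :
    ∃ m, Disjoint (nb f y m) (Sm f Φ) := by
  classical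
  induction Φ using Finset.induction_on with
  | empty => exact ⟨0, by simp [Sm]⟩
  | insert a Φ ha ih =>
    have h1 : Sm f (insert a Φ) = (nb f a 0 ∪ vv f a) ∪ Sm f Φ := by
      simp [Sm]
    rw [h1] at hy' ⊢
    have h2 : y ∉ nb f a 0 := fun h => hy' (Or.inl (Or.inl h))
    have h3 : y ∉ vv f a := fun h => hy' (Or.inl (Or.inr h))
    have h4 : y ∉ Sm f Φ := fun h => hy' (Or.inr h)
    have haD := hΦ a (Finset.mem_insert_self _ _)
    exact cl_union hD H hy (cl_union hD H hy (nb_closed hD H haD 0 y hy h2)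
      (vv_closed hD H haD y hy h3)) (ih (fun β hβ => hΦ β (Finset.mem_insert_of_mem hβ)) h4)

end facts

end Pool.Agent.R820.ES
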