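import Mathlib
import Pool.Agent.R820.ES.Step

/-!
# The inductive step of the construction: existence
-/

set_option autoImplicit false
set_option linter.unusedSectionVars false
set_option linter.unusedVariables false

namespace Pool.Agent.R820.ES

open Set
open Pool.Agent.Helper639.ForceCH (Om countable_Iio exists_bound)
open Pool.Agent.R820.QC (Diamond exists_gt_image isClub_closure countable_Iio' exists_bound_set)

/-- Choice of a sequence of points which leaves all finite unions of generators. -/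
lemma exists_pick {f : Om → Dat} {γ : Om} (g : ℕ → Om) (hg : ∀ j, g j < γ) (X : ℕ → Set Om)
    (hXs : ∀ j, X j ⊆ Iio γ) (Z : Set Om)
    (hX : ∀ j, ∀ Φ : Finset Om, (∀ β ∈ Φ, β < γ) → ¬ (X j ⊆ Sm f Φ ∪ Z)) :
    ∃ (c : ℕ → Om) (Φ : ℕ → Finset Om), (∀ j, ∀ β ∈ Φ j, β < γ) ∧ (∀ j, g j ∈ Φ j) ∧
      (∀ i j, i ≤ j → Φ i ⊆ Φ j) ∧ (∀ i j, i < j → c i ∈ Φ j) ∧
      ∀ j, c j ∈ X j ∧ c j ∉ Sm f (Φ j) ∧ c j ∉ Z := by
  classical
  have h1 : ∀ j (Φ : {Φ : Finset Om // ∀ β ∈ Φ, β < γ}), ∃ c, c ∈ X j ∧ c ∉ Sm f Φ.1 ∧ c ∉ Z := by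
    intro j Φ
    have := hX j Φ.1 Φ.2
    rw [not_subset] at this
    obtain ⟨c, hc, hc'⟩ := this
    exact ⟨c, hc, fun h => hc' (Or.inl h), fun h => hc' (Or.inr h)⟩
  choose p hp using h1
  let st : ℕ → {Φ : Finset Om // ∀ β ∈ Φ, β < γ} := fun n => Nat.rec
    ⟨{g 0}, by intro β hβ; rw [Finset.mem_singleton] at hβ; rw [hβ]; exact hg 0⟩
    (fun j Φ => ⟨insert (p j Φ) (insert (g (j + 1)) Φ.1), by
      intro β hβ
      rw [Finset.mem_insert, Finset.mem_insert] at hβ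
      rcases hβ with hβ | hβ | hβ
      · rw [hβ]
        exact hXs j (hp j Φ).1
      · rw [hβ]
        exact hg _
      · exact Φ.2 β hβ⟩) n
  have hst : ∀ j, (st (j + 1)).1 = insert (p j (st j)) (insert (g (j + 1)) (st j).1) :=
    fun j => rfl
  have hmono : ∀ i j, i ≤ j → (st i).1 ⊆ (st j).1 := by
    intro i j hij
    induction j, hij using Nat.le_induction with
    | base => exact subset_rfl
    | succ j hj ih =>
      rw [hst]
      exact ih.trans ((Finset.subset_insert _ _).trans (Finset.subset_insert _ _))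
  refine ⟨fun j => p j (st j), fun j => (st j).1, fun j => (st j).2, ?_, hmono, ?_, fun j => ?_⟩
  · intro j
    cases j with
    | zero => exact Finset.mem_singleton_self _
    | succ j =>
      change g (j + 1) ∈ (st (j + 1)).1
      rw [hst]
      exact Finset.mem_insert_of_mem (Finset.mem_insert_self _ _)
  · intro i j hij
    apply hmono (i + 1) j hij
    change p i (st i) ∈ (st (i + 1)).1
    rw [hst]
    exact Finset.mem_insert_self _ _
  · exact hp j (st j)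

lemma Sm_mono {f : Om → Dat} {Φ Ψ : Finset Om} (h : Φ ⊆ Ψ) : Sm f Φ ⊆ Sm f Ψ :=
  biUnion_subset_biUnion_left h

lemma subset_Sm {f : Om → Dat} {Φ : Finset Om} {β : Om} (h : β ∈ Φ) :
    nb f β 0 ∪ vv f β ⊆ Sm f Φ :=
  subset_biUnion_of_mem (u := fun β => nb f β 0 ∪ vv f β) h

section step

variable {s : Om → ℕ → Bool} {CC DD : Om → Set Om} {f : Om → Dat} {γ : Om}

lemma hDIio (γ : Om) : ∀ x ∈ Iio γ, ∀ y < x, y ∈ Iio γ := fun _ hx _ hy => lt_trans hy hx

/-- separation of relatively closed sets in a countable initial segment -/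
lemma exists_sep (H : ∀ x ∈ Iio γ, Q s CC DD x f) {C K : Set Om} (hCs : C ⊆ Iio γ)
    (hC : ∀ x < γ, x ∉ C → ∃ m, Disjoint (nb f x m) C)
    (hK : ∀ x < γ, x ∉ K → ∃ m, Disjoint (nb f x m) K) (hCK : Disjoint C K) :
    ∃ V : Set Om, V ⊆ Iio γ ∧ (∀ x ∈ V, ∃ m, nb f x m ⊆ V) ∧
      (∀ x < γ, x ∉ V → ∃ m, Disjoint (nb f x m) V) ∧ C ⊆ V ∧ Disjoint V K := by
  classical
  have hD := hDIio γ
  rcases (Iio γ).eq_empty_or_nonempty with h0 | h0
  · refine ⟨∅, empty_subset _, by simp, fun x hx => ?_, ?_, empty_disjoint _⟩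
    · exact absurd (show x ∈ Iio γ from hx) (by rw [h0]; simp)
    · rw [h0] at hCs
      exact hCs
  obtain ⟨g, hg⟩ := (countable_Iio' γ).exists_eq_range h0
  have hg' : ∀ j, g j < γ := fun j => by
    have : g j ∈ Iio γ := by rw [hg]; exact mem_range_self j
    exact this
  have h1 : ∀ i, ∃ m, (g i ∈ C → Disjoint (nb f (g i) m) K) ∧
      (g i ∉ C → Disjoint (nb f (g i) m) C) := by
    intro i
    by_cases hi : g i ∈ C
    · obtain ⟨m, hm⟩ := hK (g i) (hg' i) (disjoint_left.1 hCK hi)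
      exact ⟨m, fun _ => hm, fun h => absurd hi h⟩
    · obtain ⟨m, hm⟩ := hC (g i) (hg' i) hi
      exact ⟨m, fun h => absurd h hi, fun _ => hm⟩
  choose M hM1 hM2 using h1
  have h2 : ∀ y, y < γ → ∃ i, y ∈ nb f (g i) (M i) := by
    intro y hy
    have : y ∈ range g := hg ▸ hy
    obtain ⟨i, rfl⟩ := this
    exact ⟨i, mem_nb hD H (hg' i) _⟩
  -- the first index
  have h3 : ∀ y, y < γ → ∃ i, y ∈ nb f (g i) (M i) ∧ ∀ l < i, y ∉ nb f (g l) (M l) := by
    intro y hy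
    exact ⟨Nat.find (h2 y hy), Nat.find_spec (h2 y hy), fun l hl => Nat.find_min (h2 y hy) hl⟩
  choose! ι hι1 hι2 using h3
  have hι : ∀ y < γ, ∀ i, y ∈ nb f (g i) (M i) → (∀ l < i, y ∉ nb f (g l) (M l)) → ι y = i := by
    intro y hy i h h'
    rcases lt_trichotomy (ι y) i with h4 | h4 | h4
    · exact absurd (hι1 y hy) (h' _ h4)
    · exact h4
    · exact absurd h (hι2 y hy _ h4)
  have hloc : ∀ y < γ, ∃ m, ∀ z ∈ nb f y m, z < γ ∧ ι z = ι y := by
    intro y hy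
    obtain ⟨m1, hm1⟩ := nb_open hD H (hg' (ι y)) (M (ι y)) y (hι1 y hy)
    have h4 : ∀ l, ∃ m, l < ι y → Disjoint (nb f y m) (nb f (g l) (M l)) := by
      intro l
      by_cases hl : l < ι y
      · obtain ⟨m, hm⟩ := nb_closed hD H (hg' l) (M l) y hy (hι2 y hy l hl)
        exact ⟨m, fun _ => hm⟩
      · exact ⟨0, fun h => absurd h hl⟩
    choose m2 hm2 using h4
    refine ⟨max m1 ((Finset.range (ι y)).sup m2), fun z hz => ?_⟩
    have hz1 : z ∈ nb f y m1 := nb_anti hD H hy (le_max_left _ _) hz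
    have hzγ : z < γ := lt_of_le_of_lt (nb_sub hD H hy _ hz1) hy
    refine ⟨hzγ, hι z hzγ _ (hm1 hz1) fun l hl => ?_⟩
    have hz2 : z ∈ nb f y (m2 l) := nb_anti hD H hy
      ((Finset.le_sup (f := m2) (Finset.mem_range.2 hl)).trans (le_max_right _ _)) hz
    exact disjoint_left.1 (hm2 l hl) hz2
  refine ⟨{y | y < γ ∧ g (ι y) ∈ C}, fun y hy => hy.1, ?_, ?_, ?_, ?_⟩
  · rintro y ⟨hy, hy'⟩
    obtain ⟨m, hm⟩ := hloc y hy
    exact ⟨m, fun z hz => ⟨(hm z hz).1, by rw [(hm z hz).2]; exact hy'⟩⟩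
  · intro y hy hy'
    obtain ⟨m, hm⟩ := hloc y hy
    refine ⟨m, disjoint_left.2 fun z hz hz' => hy' ⟨hy, ?_⟩⟩
    rw [← (hm z hz).2]
    exact hz'.2
  · intro y hy
    refine ⟨hCs hy, ?_⟩
    by_contra hcon
    exact disjoint_left.1 (hM2 _ hcon) (hι1 y (hCs hy)) hy
  · rw [disjoint_left]
    rintro y ⟨hy, hy'⟩ hyK
    exact disjoint_left.1 (hM1 _ hy') (hι1 y hy) hyK

/-- enumeration of a countable nonempty set with infinite repetition -/
lemma exists_enum {T : Type} {S : Set T} (hS : S.Countable) (hne : S.Nonempty) :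
    ∃ e : ℕ → T, (∀ n, e n ∈ S) ∧ ∀ t ∈ S, ∀ m, ∃ n ≥ m, e n = t := by
  obtain ⟨g, rfl⟩ := hS.exists_eq_range hne
  refine ⟨fun n => g (n.unpair.1), fun n => mem_range_self _, ?_⟩
  rintro _ ⟨k, rfl⟩ m
  exact ⟨Nat.pair k m, Nat.right_le_pair k m, by simp⟩

lemma box_subset_real {F : Finset ℕ} {k n : ℕ} (hn : n < k) (hF : n ∉ F) {x : Om}
    (hx : x ∈ box s F k) : s x n = false := by
  have := hx n hn
  by_contra hcon
  exact hF (this.1 (by simpa using hcon))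

/-- facts about the promises below `γ` -/
lemma promise (H : ∀ x ∈ Iio γ, Q s CC DD x f) {i : Om} (hi : i < γ) {F : Finset ℕ}
    (hF : pr f i = some F) (k : ℕ) (Φ : Finset Om) (hΦ : ∀ β ∈ Φ, β < γ) :
    ¬ (CC i ∩ box s F k ⊆ Sm f Φ) := by
  classical
  have h1 : ∃ δ < γ, i ≤ δ ∧ ∀ β ∈ Φ, β ≤ δ := by
    have h2 : (insert i Φ).Nonempty := ⟨i, Finset.mem_insert_self _ _⟩
    refine ⟨(insert i Φ).max' h2, ?_, Finset.le_max' _ _ (Finset.mem_insert_self _ _),
      fun β hβ => Finset.le_max' _ _ (Finset.mem_insert_of_mem hβ)⟩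
    rw [Finset.max'_lt_iff]
    intro β hβ
    rcases Finset.mem_insert.1 hβ with h | h
    · rw [h]; exact hi
    · exact hΦ β h
  obtain ⟨δ, hδ, hδ1, hδ2⟩ := h1
  exact (H δ hδ).pres i hδ1 F hF k Φ hδ2

theorem step (hCC : ∀ γ, CC γ ⊆ Iio γ) (H : ∀ x ∈ Iio γ, Q s CC DD x f) :
    ∃ t : Dat, Q s CC DD γ (Function.update f γ t) := by
  classical
  have hD := hDIio γ
  -- the promise
  obtain ⟨p, hp1, hp2⟩ : ∃ p : Option (Finset ℕ),
      (∀ F, p = some F → ∀ k, ∀ Φ : Finset Om, (∀ β ∈ Φ, β < γ) →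
        ¬ (CC γ ∩ box s F k ⊆ Sm f Φ)) ∧
      ((∃ F, ∀ k, ∀ Φ : Finset Om, (∀ β ∈ Φ, β < γ) → ¬ (CC γ ∩ box s F k ⊆ Sm f Φ)) →
        ∃ F, p = some F) := by
    by_cases h : ∃ F, ∀ k, ∀ Φ : Finset Om, (∀ β ∈ Φ, β < γ) → ¬ (CC γ ∩ box s F k ⊆ Sm f Φ)
    · obtain ⟨F, hF⟩ := h
      refine ⟨some F, ?_, fun _ => ⟨F, rfl⟩⟩
      intro F' hF'
      rw [Option.some.injEq] at hF'
      exact hF' ▸ hF
    · exact ⟨none, by simp, fun h' => absurd h' h⟩
  -- all promises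
  let Pq : Set (Om × Finset ℕ) := {q | (q.1 < γ ∧ pr f q.1 = some q.2) ∨ (q.1 = γ ∧ p = some q.2)}
  have hPqle : ∀ q ∈ Pq, q.1 ≤ γ := by
    rintro q (h | h)
    · exact h.1.le
    · exact h.1.le
  have hPqc : Pq.Countable := by
    have h1 : (Iic γ).Countable := by
      rw [← Iio_insert]
      exact (countable_Iio' γ).insert γ
    refine (h1.prod (countable_univ (α := Finset ℕ))).mono ?_
    intro q hq
    exact mem_prod.2 ⟨hPqle q hq, mem_univ _⟩
  have hPq : ∀ q ∈ Pq, ∀ k, ∀ Φ : Finset Om, (∀ β ∈ Φ, β < γ) →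
      ¬ (CC q.1 ∩ box s q.2 k ⊆ Sm f Φ) := by
    rintro q (⟨h, h'⟩ | ⟨h, h'⟩) k Φ hΦ
    · exact promise H h h' k Φ hΦ
    · rw [h]
      exact hp1 _ h' k Φ hΦ
  have hPqs : ∀ q ∈ Pq, CC q.1 ⊆ Iio γ := fun q hq =>
    (hCC q.1).trans (Iio_subset_Iio (hPqle q hq))
  -- if there is a promise then `γ` has smaller points
  have hγne : Pq.Nonempty → (Iio γ).Nonempty := by
    rintro ⟨q, hq⟩
    by_contra hcon
    rw [not_nonempty_iff_eq_empty] at hcon
    apply hPq q hq 0 ∅ (by simp)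
    intro x hx
    have := hPqs q hq hx.1
    rw [hcon] at this
    exact absurd this (by simp)
  -- the clopen set
  obtain ⟨V, hV1, hV2, hV3, hV4, hV5⟩ : ∃ V : Set Om, V ⊆ Iio γ ∧ (∀ x ∈ V, ∃ m, nb f x m ⊆ V) ∧
      (∀ x < γ, x ∉ V → ∃ m, Disjoint (nb f x m) V) ∧
      (∀ q ∈ Pq, ∀ k, ∀ Φ : Finset Om, (∀ β ∈ Φ, β < γ) →
        ¬ (CC q.1 ∩ box s q.2 k ⊆ Sm f Φ ∪ V)) ∧
      ((∀ x < γ, x ∉ CC γ → ∃ m, Disjoint (nb f x m) (CC γ)) →
        (∀ x < γ, x ∉ DD γ → ∃ m, Disjoint (nb f x m) (DD γ)) → Disjoint (CC γ) (DD γ) →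
        (∀ q ∈ Pq, ∀ k, ∀ Φ : Finset Om, (∀ β ∈ Φ, β < γ) →
          ¬ (CC q.1 ∩ box s q.2 k ⊆ Sm f Φ ∪ CC γ)) → CC γ ⊆ V ∧ Disjoint V (DD γ)) := by
    by_cases hgood : (∀ x < γ, x ∉ CC γ → ∃ m, Disjoint (nb f x m) (CC γ)) ∧
        (∀ x < γ, x ∉ DD γ → ∃ m, Disjoint (nb f x m) (DD γ)) ∧ Disjoint (CC γ) (DD γ) ∧
        (∀ q ∈ Pq, ∀ k, ∀ Φ : Finset Om, (∀ β ∈ Φ, β < γ) →
          ¬ (CC q.1 ∩ box s q.2 k ⊆ Sm f Φ ∪ CC γ))
    swap
    · refine ⟨∅, empty_subset _, by simp, fun x _ _ => ⟨0, disjoint_empty _⟩, ?_,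
        fun h1 h2 h3 h4 => absurd ⟨h1, h2, h3, h4⟩ hgood⟩
      intro q hq k Φ hΦ
      rw [union_empty]
      exact hPq q hq k Φ hΦ
    obtain ⟨g1, g2, g3, g4⟩ := hgood
    -- the reserved points
    obtain ⟨E, hE1, hE2, hE3⟩ : ∃ E : Set Om, Disjoint (CC γ) E ∧
        (∀ x < γ, x ∉ E → ∃ m, Disjoint (nb f x m) E) ∧
        (∀ q ∈ Pq, ∀ k, ∀ Φ : Finset Om, (∀ β ∈ Φ, β < γ) →
          ∃ e ∈ E, e ∈ CC q.1 ∩ box s q.2 k ∧ e ∉ Sm f Φ) := by
      rcases Pq.eq_empty_or_nonempty with h0 | h0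
      · exact ⟨∅, disjoint_empty _, fun x _ _ => ⟨0, disjoint_empty _⟩, by rw [h0]; simp⟩
      obtain ⟨g, hg⟩ := (countable_Iio' γ).exists_eq_range (hγne h0)
      have hg' : ∀ j, g j < γ := fun j => by
        have : g j ∈ Iio γ := by rw [hg]; exact mem_range_self j
        exact this
      obtain ⟨e, he1, he2⟩ := exists_enum hPqc h0
      obtain ⟨c, Φ, hc1, hc2, hc3, hc4, hc5⟩ := exists_pick (f := f) g hg'
        (fun j => CC (e j).1 ∩ box s (e j).2 j) (fun j => inter_subset_left.trans (hPqs _ (he1 j)))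
        (CC γ) (fun j Φ hΦ => g4 _ (he1 j) j Φ hΦ)
      have hcγ : ∀ j, c j < γ := fun j => hPqs _ (he1 j) (hc5 j).1.1
      refine ⟨range c, ?_, ?_, ?_⟩
      · rw [disjoint_right]
        rintro _ ⟨j, rfl⟩
        exact (hc5 j).2.2
      · intro x hx hx'
        have : x ∈ range g := hg ▸ hx
        obtain ⟨i, rfl⟩ := this
        have h1 : ∀ j, i ≤ j → c j ∉ nb f (g i) 0 := by
          intro j hj hcon
          exact (hc5 j).2.1 (subset_Sm (hc3 i j hj (hc2 i)) (Or.inl hcon))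
        have h2 : ∀ j, ∃ m, c j ∉ nb f (g i) m := by
          intro j
          have hne : g i ≠ c j := fun h => hx' ⟨j, h.symm⟩
          obtain ⟨m, m', hm⟩ := nb_sep hD H (hg' i) (hcγ j) hne
          exact ⟨m, fun h => disjoint_left.1 hm h (mem_nb hD H (hcγ j) m')⟩
        choose m hm using h2
        refine ⟨(Finset.range i).sup m, ?_⟩
        rw [disjoint_right]
        rintro _ ⟨j, rfl⟩ hcon
        rcases lt_or_ge j i with h | h
        · exact hm j (nb_anti hD H (hg' i) (Finset.le_sup (f := m) (Finset.mem_range.2 h)) hcon)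
        · exact h1 j h (nb_anti hD H (hg' i) (Nat.zero_le _) hcon)
      · intro q hq k Ψ hΨ
        -- all elements of `Ψ` are enumerated below some index
        have h1 : ∃ N, ∀ j ≥ N, Ψ ⊆ Φ j := by
          have h2 : ∀ β ∈ Ψ, ∃ i, g i = β := fun β hβ => by
            have : β ∈ range g := hg ▸ hΨ β hβ
            exact this
          choose! ind hind using h2
          refine ⟨Ψ.sup ind, fun j hj β hβ => ?_⟩
          rw [← hind β hβ]
          exact hc3 (ind β) j ((Finset.le_sup (f := ind) hβ).trans hj) (hc2 _)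
        obtain ⟨N, hN⟩ := h1
        obtain ⟨j, hj, hj'⟩ := he2 q hq (max N k)
        refine ⟨c j, mem_range_self j, ?_, fun h => (hc5 j).2.1 (Sm_mono
          (hN j ((le_max_left _ _).trans hj)) h)⟩
        have := (hc5 j).1
        rw [hj'] at this
        exact ⟨this.1, box_anti s _ ((le_max_right _ _).trans hj) this.2⟩
    obtain ⟨V, hV1, hV2, hV3, hV4, hV5⟩ := exists_sep H (hCC γ) g1
      (K := DD γ ∪ E) (fun x hx hx' => cl_union hD H hx (g2 x hx fun h => hx' (Or.inl h))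
        (hE2 x hx fun h => hx' (Or.inr h))) (disjoint_union_right.2 ⟨g3, hE1⟩)
    rw [disjoint_union_right] at hV5
    refine ⟨V, hV1, hV2, hV3, ?_, fun _ _ _ _ => ⟨hV4, hV5.1⟩⟩
    intro q hq k Φ hΦ hcon
    obtain ⟨e, he, he1, he2⟩ := hE3 q hq k Φ hΦ
    rcases hcon he1 with h | h
    · exact he2 h
    · exact disjoint_left.1 hV5.2 h he
  -- the neighbourhoods
  obtain ⟨W, hW1, hW2, hW3, hW4, hW5, hW6⟩ : ∃ W : ℕ → Set Om,
      (∀ j, W j = ∅ ∨ ∃ β < γ, ∃ m, W j = nb f β m) ∧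
      (∀ β < γ, ∃ j₀, ∀ j ≥ j₀, Disjoint (W j) (nb f β 0 ∪ vv f β)) ∧
      (∃ j₀, ∀ j ≥ j₀, Disjoint (W j) V) ∧
      (∀ n, s γ n = false → ∃ j₀, ∀ j ≥ j₀, ∀ x ∈ W j, s x n = false) ∧
      (∀ q ∈ Pq, (∀ n ∈ q.2, s γ n = true) → ∀ k m, ∃ j ≥ m,
        (W j ∩ (CC q.1 ∩ box s q.2 k)).Nonempty) ∧
      (∀ q ∈ Pq, ∀ k, ∀ Φ : Finset Om, (∀ β ∈ Φ, β < γ) →
        ∃ e, e < γ ∧ e ∈ CC q.1 ∩ box s q.2 k ∧ e ∉ Sm f Φ ∧ e ∉ V ∧ ∀ j, e ∉ W j) := by
    rcases {q ∈ Pq | ∀ n ∈ q.2, s γ n = true}.eq_empty_or_nonempty with h1 | h1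
    · refine ⟨fun _ => ∅, fun j => Or.inl rfl, fun β _ => ⟨0, fun _ _ => empty_disjoint _⟩,
        ⟨0, fun _ _ => empty_disjoint _⟩, fun n _ => ⟨0, by simp⟩, ?_, ?_⟩
      · intro q hq hq'
        exact absurd (show q ∈ {q ∈ Pq | ∀ n ∈ q.2, s γ n = true} from ⟨hq, hq'⟩) (by rw [h1]; simp)
      · intro q hq k Φ hΦ
        have := hV4 q hq k Φ hΦ
        rw [not_subset] at this
        obtain ⟨e, he, he'⟩ := this
        exact ⟨e, hPqs q hq he.1, he, fun h => he' (Or.inl h), fun h => he' (Or.inr h), by simp⟩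
    have h0 : Pq.Nonempty := h1.mono fun q hq => hq.1
    obtain ⟨g, hg⟩ := (countable_Iio' γ).exists_eq_range (hγne h0)
    have hg' : ∀ j, g j < γ := fun j => by
      have : g j ∈ Iio γ := by rw [hg]; exact mem_range_self j
      exact this
    obtain ⟨e1, he1, he1'⟩ := exists_enum (hPqc.mono (sep_subset Pq _)) h1
    obtain ⟨e2, he2, he2'⟩ := exists_enum hPqc h0
    let e : ℕ → Om × Finset ℕ := fun j => if j % 2 = 0 then e1 (j / 2) else e2 (j / 2)
    have he : ∀ j, e j ∈ Pq := by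
      intro j
      simp only [e]
      split_ifs
      · exact (he1 _).1
      · exact he2 _
    obtain ⟨c, Φ, hc1, hc2, hc3, hc4, hc5⟩ := exists_pick (f := f) g hg'
      (fun j => CC (e j).1 ∩ box s (e j).2 j) (fun j => inter_subset_left.trans (hPqs _ (he j)))
      V (fun j Φ hΦ => hV4 _ (he j) j Φ hΦ)
    have hcγ : ∀ j, c j < γ := fun j => hPqs _ (he j) (hc5 j).1.1
    -- small neighbourhoods of the points with even index
    have h2 : ∀ j, ∃ m, Disjoint (nb f (c (2 * j)) m) (Sm f (Φ (2 * j)) ∪ V) ∧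
        ∀ n < 2 * j, s (c (2 * j)) n = false → ∀ x ∈ nb f (c (2 * j)) m, s x n = false := by
      intro j
      obtain ⟨m1, hm1⟩ := cl_union hD H (hcγ (2 * j))
        (Sm_closed hD H (fun β hβ => hc1 (2 * j) β hβ) (hcγ (2 * j)) (hc5 (2 * j)).2.1)
        (hV3 _ (hcγ (2 * j)) (hc5 (2 * j)).2.2)
      have h3 : ∀ n, ∃ m, s (c (2 * j)) n = false → ∀ x ∈ nb f (c (2 * j)) m, s x n = false := by
        intro n
        by_cases hn : s (c (2 * j)) n = false
        · obtain ⟨m, hm⟩ := real_open hD H (hcγ (2 * j)) hn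
          exact ⟨m, fun _ => hm⟩
        · exact ⟨0, fun h => absurd h hn⟩
      choose m2 hm2 using h3
      refine ⟨max m1 ((Finset.range (2 * j)).sup m2), hm1.mono_left
        (nb_anti hD H (hcγ _) (le_max_left _ _)), fun n hn hn' x hx => ?_⟩
      exact hm2 n hn' x (nb_anti hD H (hcγ _) ((Finset.le_sup (f := m2)
        (Finset.mem_range.2 hn)).trans (le_max_right _ _)) hx)
    choose M hM1 hM2 using h2
    refine ⟨fun j => nb f (c (2 * j)) (M j), fun j => Or.inr ⟨_, hcγ _, _, rfl⟩, ?_,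
      ⟨0, fun j _ => (disjoint_union_right.1 (hM1 j)).2⟩, ?_, ?_, ?_⟩
    · intro β hβ
      have : β ∈ range g := hg ▸ hβ
      obtain ⟨i, rfl⟩ := this
      refine ⟨i, fun j hj => (disjoint_union_right.1 (hM1 j)).1.mono_right ?_⟩
      exact subset_Sm (hc3 i (2 * j) (by omega) (hc2 i))
    · intro n hn
      refine ⟨n + 1, fun j hj x hx => hM2 j n (by omega) ?_ x hx⟩
      have h3 := (hc5 (2 * j)).1.2
      have h4 : e (2 * j) = e1 j := by simp [e]
      simp only [h4] at h3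
      refine box_subset_real (by omega) ?_ h3
      intro hcon
      have := (he1 j).2 n hcon
      rw [hn] at this
      exact absurd this (by simp)
    · intro q hq hq' k m
      obtain ⟨j, hj, hj'⟩ := he1' q ⟨hq, hq'⟩ (max m k)
      refine ⟨j, (le_max_left _ _).trans hj, c (2 * j), mem_nb hD H (hcγ _) _, ?_⟩
      have h3 := (hc5 (2 * j)).1
      have h4 : e (2 * j) = q := by simp [e, hj']
      simp only [h4] at h3
      exact ⟨h3.1, box_anti s _ (by have := (le_max_right m k).trans hj; omega) h3.2⟩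
    · intro q hq k Ψ hΨ
      have h3 : ∃ N, ∀ j ≥ N, Ψ ⊆ Φ j := by
        have h4 : ∀ β ∈ Ψ, ∃ i, g i = β := fun β hβ => by
          have : β ∈ range g := hg ▸ hΨ β hβ
          exact this
        choose! ind hind using h4
        refine ⟨Ψ.sup ind, fun j hj β hβ => ?_⟩
        rw [← hind β hβ]
        exact hc3 (ind β) j ((Finset.le_sup (f := ind) hβ).trans hj) (hc2 _)
      obtain ⟨N, hN⟩ := h3
      obtain ⟨j, hj, hj'⟩ := he2' q hq (max N k)
      have h4 : e (2 * j + 1) = q := by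
        have h5 : (2 * j + 1) % 2 = 1 := by omega
        have h6 : (2 * j + 1) / 2 = j := by omega
        simp [e, h5, h6, hj']
      have h5 := (hc5 (2 * j + 1)).1
      simp only [h4] at h5
      refine ⟨c (2 * j + 1), hcγ _, ⟨h5.1, box_anti s _
        (by have := (le_max_right N k).trans hj; omega) h5.2⟩, ?_, (hc5 _).2.2, ?_⟩
      · intro hcon
        exact (hc5 (2 * j + 1)).2.1 (Sm_mono (hN _ (by
          have := (le_max_left N k).trans hj; omega)) hcon)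
      · intro j' hcon
        rcases lt_or_ge (2 * j') (2 * j + 1) with h | h
        · -- the point is not in the generator of `c (2 j')`
          apply (hc5 (2 * j + 1)).2.1
          exact subset_Sm (hc4 _ _ h) (Or.inl (nb_anti hD H (hcγ _) (Nat.zero_le _) hcon))
        · have h' : 2 * j + 1 < 2 * j' := by omega
          exact disjoint_left.1 (disjoint_union_right.1 (hM1 j')).1 hcon
            (subset_Sm (hc4 _ _ h') (Or.inl (mem_nb hD H (hcγ _) 0)))
  -- assembly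
  let N : ℕ → Set Om := fun m => {γ} ∪ ⋃ j, ⋃ (_ : m ≤ j), W j
  let F' : Om → Dat := Function.update f γ (N, V, p)
  have hne : ∀ x, x < γ → F' x = f x := fun x hx => Function.update_of_ne hx.ne _ _
  have hγ : F' γ = (N, V, p) := Function.update_self _ _ _
  have hnb : ∀ m, nb F' γ m = N m := fun m => by simp only [nb, hγ]
  have hvv : vv F' γ = V := by simp only [vv, hγ]
  have hpr : pr F' γ = p := by simp only [pr, hγ]
  have hpr' : ∀ i ≤ γ, ∀ F, pr F' i = some F → (i, F) ∈ Pq := by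
    intro i hi F hF
    rcases hi.lt_or_eq with h | h
    · exact Or.inl ⟨h, by rw [pr_congr (hne i h)] at hF; exact hF⟩
    · subst h
      exact Or.inr ⟨rfl, by rw [← hpr]; exact hF⟩
  refine ⟨(N, V, p), ⟨⟨W, hnb, ?_, ?_, ?_, hW4, ?_⟩, ?_, ?_, ?_, ?_, ?_, ?_⟩⟩
  · intro j
    rcases hW1 j with h | ⟨β, hβ, m, h⟩
    · exact Or.inl h
    · exact Or.inr ⟨β, hβ, m, by rw [h]; exact (nb_congr (hne β hβ) m).symm⟩
  · intro β hβ
    have h1 := nb_congr (hne β hβ) 0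
    have h2 := vv_congr (hne β hβ)
    simp only [F'] at h1 h2
    rw [h1, h2]
    exact hW2 β hβ
  · change ∃ j₀, ∀ j ≥ j₀, Disjoint (W j) (vv F' γ)
    rw [hvv]
    exact hW3
  · intro i hi F hF hF' k m
    exact hW5 (i, F) (hpr' i hi F hF) hF' k m
  · intro i hi F hF k Φ hΦ hcon
    obtain ⟨e, h1, h2, h3, h4, h5⟩ := hW6 (i, F) (hpr' i hi F hF) k (Φ.erase γ) (by
      intro β hβ
      exact lt_of_le_of_ne (hΦ β (Finset.mem_of_mem_erase hβ)) (Finset.ne_of_mem_erase hβ))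
    have h6 := hcon h2
    simp only [Sm, mem_iUnion] at h6
    obtain ⟨β, hβ, h6⟩ := h6
    rcases (hΦ β hβ).lt_or_eq with h | h
    · apply h3
      have h7 : nb F' β 0 ∪ vv F' β = nb f β 0 ∪ vv f β := by
        rw [nb_congr (hne β h), vv_congr (hne β h)]
      exact subset_Sm (Finset.mem_erase.2 ⟨h.ne, hβ⟩) (h7 ▸ h6)
    · subst h
      rcases h6 with h6 | h6
      · have h7 : e ∈ nb F' β 0 := h6
        rw [hnb] at h7
        rcases h7 with h7 | h7
        · exact absurd (mem_singleton_iff.1 h7) h1.ne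
        · obtain ⟨j, hj⟩ := mem_iUnion.1 h7
          obtain ⟨_, hj⟩ := mem_iUnion.1 hj
          exact h5 j hj
      · have h7 : e ∈ vv F' β := h6
        rw [hvv] at h7
        exact h4 h7
  · intro h
    change ∃ F, pr F' γ = some F
    rw [hpr]
    apply hp2
    obtain ⟨F, hF⟩ := h
    refine ⟨F, fun k Φ hΦ => ?_⟩
    have := hF k Φ hΦ
    rwa [Sm_congr fun x hx => hne x (hΦ x hx)] at this
  · change vv F' γ ⊆ _
    rw [hvv]
    exact hV1
  · change ∀ x ∈ vv F' γ, ∃ m, nb F' x m ⊆ vv F' γ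
    rw [hvv]
    intro x hx
    obtain ⟨m, hm⟩ := hV2 x hx
    exact ⟨m, by rw [nb_congr (hne x (hV1 hx))]; exact hm⟩
  · change ∀ x < γ, x ∉ vv F' γ → ∃ m, Disjoint (nb F' x m) (vv F' γ)
    rw [hvv]
    intro x hx hx'
    obtain ⟨m, hm⟩ := hV3 x hx hx'
    exact ⟨m, by rw [nb_congr (hne x hx)]; exact hm⟩
  · intro a1 a2 a3 a4
    change CC γ ⊆ vv F' γ ∧ Disjoint (vv F' γ) (DD γ)
    rw [hvv]
    refine hV5 ?_ ?_ a3 ?_
    · intro x hx hx'
      obtain ⟨m, hm⟩ := a1 x hx hx'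
      have h1 := nb_congr (hne x hx) m
      simp only [F'] at h1
      exact ⟨m, by rw [← h1]; exact hm⟩
    · intro x hx hx'
      obtain ⟨m, hm⟩ := a2 x hx hx'
      have h1 := nb_congr (hne x hx) m
      simp only [F'] at h1
      exact ⟨m, by rw [← h1]; exact hm⟩
    · rintro ⟨i, F⟩ hq k Φ hΦ
      have h1 := a4 i (hPqle _ hq) F (by
        change pr F' i = some F
        rcases hq with h | h
        · rw [pr_congr (hne i h.1)]
          exact h.2
        · simp only at h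
          rw [h.1, hpr]
          exact h.2) k Φ hΦ
      rwa [Sm_congr fun x hx => hne x (hΦ x hx)] at h1

end step

end Pool.Agent.R820.ES
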