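import Mathlib
import Pool.Agent.R820.ES.Step2

/-!
# A normal functionally countable space which is not exponentially separable, from diamond
-/

set_option autoImplicit false
set_option linter.unusedSectionVars false
set_option linter.unusedVariables false

namespace Pool.Agent.R820.ES

open Set Filter Topology
open Pool.Agent.Helper639.ForceCH (Om countable_Iio exists_bound)
open Pool.Agent.R820.QC (Diamond exists_gt_image isClub_closure countable_Iio' exists_bound_set)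

theorem exists_f {s : Om → ℕ → Bool} {CC DD : Om → Set Om} (hCC : ∀ γ, CC γ ⊆ Iio γ) :
    ∃ f : Om → Dat, ∀ γ, Q s CC DD γ f := by
  classical
  obtain ⟨f, hf⟩ := exists_rec (T := Dat) (fun _ => ∅, ∅, none)
    (fun γ f t => Q s CC DD γ (Function.update f γ t)) (by
      intro α f g t hfg hQ
      refine Q_congr s CC DD ?_ hQ
      intro x hx
      rcases hx.lt_or_eq with h | h
      · rw [Function.update_of_ne h.ne, Function.update_of_ne h.ne, hfg x h]
      · subst h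
        rw [Function.update_self, Function.update_self]) (by
      intro α f hf
      apply step hCC
      intro x hx
      have := hf x hx
      rwa [Function.update_eq_self] at this)
  refine ⟨f, fun γ => ?_⟩
  have := hf γ
  rwa [Function.update_eq_self] at this

/-- the topology -/
def top (f : Om → Dat) : TopologicalSpace Om where
  IsOpen U := ∀ x ∈ U, ∃ m, ∀ m' ≥ m, nb f x m' ⊆ U
  isOpen_univ := fun _ _ => ⟨0, fun _ _ => subset_univ _⟩
  isOpen_inter := by
    intro U V hU hV x hx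
    obtain ⟨m, hm⟩ := hU x hx.1
    obtain ⟨m', hm'⟩ := hV x hx.2
    exact ⟨max m m', fun k hk => subset_inter (hm k ((le_max_left _ _).trans hk))
      (hm' k ((le_max_right _ _).trans hk))⟩
  isOpen_sUnion := by
    intro S hS x hx
    obtain ⟨U, hU, hxU⟩ := hx
    obtain ⟨m, hm⟩ := hS U hU x hxU
    exact ⟨m, fun k hk => (hm k hk).trans (subset_sUnion_of_mem hU)⟩

lemma hDu : ∀ x ∈ (univ : Set Om), ∀ y < x, y ∈ (univ : Set Om) := fun _ _ _ _ => mem_univ _

/-- closed in terms of the neighbourhoods -/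
def Cl (f : Om → Dat) (K : Set Om) : Prop := ∀ x, x ∉ K → ∃ m, Disjoint (nb f x m) K

/-- open in terms of the neighbourhoods -/
def Op (f : Om → Dat) (U : Set Om) : Prop := ∀ x ∈ U, ∃ m, nb f x m ⊆ U

section main

variable {s : Om → ℕ → Bool} {CC DD : Om → Set Om} {f : Om → Dat} (H : ∀ γ, Q s CC DD γ f)
include H

lemma isOpen_iff' {U : Set Om} : IsOpen[top f] U ↔ Op f U := by
  constructor
  · intro h x hx
    obtain ⟨m, hm⟩ := h x hx
    exact ⟨m, hm m le_rfl⟩
  · intro h x hx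
    obtain ⟨m, hm⟩ := h x hx
    exact ⟨m, fun k hk => (nb_anti hDu (fun x _ => H x) (mem_univ x) hk).trans hm⟩

lemma isClosed_iff' {K : Set Om} : IsClosed[top f] K ↔ Cl f K := by
  rw [← @isOpen_compl_iff Om K (top f), isOpen_iff' H]
  simp only [Op, Cl, mem_compl_iff, subset_compl_iff_disjoint_right]

lemma Cl_real (n : ℕ) : Cl f {x | s x n = true} := by
  intro x hx
  have hx' : s x n = false := by simpa using hx
  obtain ⟨m, hm⟩ := real_open hDu (fun x _ => H x) (mem_univ x) hx'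
  refine ⟨m, disjoint_left.2 fun y hy hy' => ?_⟩
  have h1 := hm y hy
  have h2 : s y n = true := hy'
  rw [h1] at h2
  exact absurd h2 (by simp)

lemma prom_cl {i β : Om} {F : Finset ℕ} (hF : pr f i = some F) (hi : i ≤ β)
    (hβ : ∀ n ∈ F, s β n = true) (k m : ℕ) : (nb f β m ∩ (CC i ∩ box s F k)).Nonempty := by
  obtain ⟨W, h1, h2, h3, h4, h5, h6⟩ := (H β).shape
  obtain ⟨j, hj, x, hx, hx'⟩ := h6 i hi F hF hβ k m
  refine ⟨x, ?_, hx'⟩
  rw [h1]
  exact Or.inr (mem_iUnion₂.2 ⟨j, hj, hx⟩)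

lemma Sm_bound {Φ : Finset Om} {b x : Om} (hΦ : ∀ β ∈ Φ, β ≤ b) (hx : x ∈ Sm f Φ) : x ≤ b := by
  simp only [Sm, mem_iUnion] at hx
  obtain ⟨β, hβ, hx⟩ := hx
  rcases hx with hx | hx
  · exact (nb_sub hDu (fun x _ => H x) (mem_univ β) 0 hx : x ≤ β).trans (hΦ β hβ)
  · exact le_of_lt (((H β).vsub hx : x < β).trans_le (hΦ β hβ))

variable (hguess : ∀ (C D : Set Om) (K : Om → Prop), QC.IsClub K →
      ∃ γ, K γ ∧ CC γ = C ∩ Iio γ ∧ DD γ = D ∩ Iio γ)
    (hs2 : ∀ C : Set Om, ¬ C.Countable → ∃ F : Finset ℕ, ∀ k : ℕ,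
      ¬ {x ∈ C | ∀ n < k, (s x n = true ↔ n ∈ F)}.Countable)
    (hs3 : ∀ (F : Finset ℕ) (γ : Om), ∃ β, γ < β ∧ ∀ n ∈ F, s β n = true)

include hguess hs2 in
lemma exists_promise {C : Set Om} (hC : ¬ C.Countable) :
    ∃ F γ, pr f γ = some F ∧ CC γ = C ∩ Iio γ := by
  classical
  obtain ⟨F, hF⟩ := hs2 C hC
  have h1 : ∀ (k : ℕ) (b : Om), ∃ c, c ∈ C ∩ box s F k ∧ b < c := fun k b => by
    obtain ⟨c, hc, hc'⟩ := unbounded_of_not_countable (hF k) b
    exact ⟨c, ⟨hc.1, hc.2⟩, hc'⟩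
  choose h hh1 hh2 using h1
  have h2 : ∀ b, ∃ c, ∀ k, h k b < c := fun b => exists_bound fun k => h k b
  choose g hg using h2
  obtain ⟨γ, ⟨⟨b0, hb0⟩, hγ⟩, hγ1, -⟩ := hguess C ∅ _ (isClub_closure g)
  have hp : ∃ F, pr f γ = some F := by
    apply (H γ).prom
    refine ⟨F, fun k Φ hΦ hcon => ?_⟩
    obtain ⟨b, hb, hb'⟩ : ∃ b < γ, ∀ β ∈ Φ, β ≤ b := by
      have h2 : (insert b0 Φ).Nonempty := ⟨b0, Finset.mem_insert_self _ _⟩
      refine ⟨(insert b0 Φ).max' h2, ?_, fun β hβ =>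
        Finset.le_max' _ _ (Finset.mem_insert_of_mem hβ)⟩
      rw [Finset.max'_lt_iff]
      intro β hβ
      rcases Finset.mem_insert.1 hβ with h | h
      · rw [h]; exact hb0
      · exact hΦ β h
    have h3 : h k b < γ := (hg b k).trans (hγ b hb)
    have h4 := hcon ⟨by rw [hγ1]; exact ⟨(hh1 k b).1, h3⟩, (hh1 k b).2⟩
    exact absurd (hh2 k b) (not_lt.2 (Sm_bound H hb' h4))
  obtain ⟨F', hF'⟩ := hp
  exact ⟨F', γ, hF', hγ1⟩

include hguess hs2 in
lemma closed_contains {C : Set Om} (hC : ¬ C.Countable) (hcl : Cl f C) :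
    ∃ (F : Finset ℕ) (γ : Om), ∀ β, γ ≤ β → (∀ n ∈ F, s β n = true) → β ∈ C := by
  obtain ⟨F, γ, h1, h2⟩ := exists_promise H hguess hs2 hC
  refine ⟨F, γ, fun β hβ hβ' => ?_⟩
  by_contra hcon
  obtain ⟨m, hm⟩ := hcl β hcon
  obtain ⟨x, hx, hx'⟩ := prom_cl H h1 hβ hβ' 0 m
  rw [h2] at hx'
  exact disjoint_left.1 hm hx hx'.1.1

include hguess hs2 hs3 in
lemma one_countable {C D : Set Om} (hC : Cl f C) (hD : Cl f D) (hCD : Disjoint C D) :
    C.Countable ∨ D.Countable := by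
  by_contra hcon
  rw [not_or] at hcon
  obtain ⟨F, γ, h⟩ := closed_contains H hguess hs2 hcon.1 hC
  obtain ⟨F', γ', h'⟩ := closed_contains H hguess hs2 hcon.2 hD
  obtain ⟨β, hβ, hβ'⟩ := hs3 (F ∪ F') (max γ γ')
  exact disjoint_left.1 hCD
    (h β ((le_max_left _ _).trans hβ.le) fun n hn => hβ' n (Finset.mem_union_left _ hn))
    (h' β ((le_max_right _ _).trans hβ.le) fun n hn => hβ' n (Finset.mem_union_right _ hn))

lemma Cl_union {K K' : Set Om} (hK : Cl f K) (hK' : Cl f K') : Cl f (K ∪ K') := by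
  intro x hx
  exact cl_union hDu (fun x _ => H x) (mem_univ x) (hK x fun h => hx (Or.inl h))
    (hK' x fun h => hx (Or.inr h))

include hguess hs3 in
lemma exists_clopen_sep {C D : Set Om} (hCc : C.Countable) (hC : Cl f C) (hD : Cl f D)
    (hCD : Disjoint C D) : ∃ V : Set Om, Op f V ∧ Cl f V ∧ C ⊆ V ∧ Disjoint V D := by
  obtain ⟨c0, hc0⟩ := exists_bound_set hCc
  have hclub : QC.IsClub fun a => c0 < a := by
    constructor
    · intro a
      obtain ⟨b, hb⟩ := exists_gt (max a c0)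
      exact ⟨b, (le_max_left _ _).trans_lt hb, (le_max_right _ _).trans_lt hb⟩
    · rintro a ⟨b, hb⟩ h
      obtain ⟨c, hc, hc'⟩ := h b hb
      exact hc'.trans hc.2
  obtain ⟨γ, hγ, hγ1, hγ2⟩ := hguess C D _ hclub
  have hCγ : CC γ = C := by
    rw [hγ1]
    exact inter_eq_left.2 fun c hc => (hc0 c hc).trans hγ
  have hpair := (H γ).pair (by
    intro x hx hx'
    rw [hCγ] at hx' ⊢
    exact hC x hx') (by
    intro x hx hx'
    rw [hγ2] at hx' ⊢
    obtain ⟨m, hm⟩ := hD x fun h => hx' ⟨h, hx⟩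
    exact ⟨m, hm.mono_right inter_subset_left⟩) (by
    rw [hCγ, hγ2]
    exact hCD.mono_right inter_subset_left) (by
    intro i hi F hF k Φ hΦ hcon
    rw [hCγ] at hcon
    obtain ⟨β, hβ, hβ'⟩ := hs3 F γ
    have h1 : Cl f (Sm f Φ ∪ C) := Cl_union H
      (fun x hx => Sm_closed hDu (fun x _ => H x) (fun _ _ => mem_univ _) (mem_univ x) hx) hC
    have h2 : β ∈ Sm f Φ ∪ C := by
      by_contra h2
      obtain ⟨m, hm⟩ := h1 β h2
      obtain ⟨x, hx, hx'⟩ := prom_cl H hF (hi.trans hβ.le) hβ' k m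
      exact disjoint_left.1 hm hx (hcon hx')
    rcases h2 with h2 | h2
    · exact absurd hβ (not_lt.2 (Sm_bound H (fun x hx => (hΦ x hx).le) h2))
    · exact absurd (hβ.trans ((hc0 β h2).trans hγ)) (lt_irrefl _))
  rw [hCγ] at hpair
  refine ⟨vv f γ, (H γ).vopen, fun x hx =>
    vv_closed hDu (fun x _ => H x) (mem_univ γ) x (mem_univ x) hx, hpair.1, ?_⟩
  rw [disjoint_left]
  intro x hx hx'
  refine disjoint_left.1 hpair.2 hx ?_
  rw [hγ2]
  exact ⟨hx', (H γ).vsub hx⟩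

include hguess hs2 hs3 in
lemma exists_clopen_sep' {C D : Set Om} (hC : Cl f C) (hD : Cl f D)
    (hCD : Disjoint C D) : ∃ V : Set Om, Op f V ∧ Cl f V ∧ C ⊆ V ∧ Disjoint V D := by
  rcases one_countable H hguess hs2 hs3 hC hD hCD with h | h
  · exact exists_clopen_sep H hguess hs3 h hC hD hCD
  · obtain ⟨V, h1, h2, h3, h4⟩ := exists_clopen_sep H hguess hs3 h hD hC hCD.symm
    refine ⟨Vᶜ, ?_, ?_, ?_, ?_⟩
    · intro x hx
      obtain ⟨m, hm⟩ := h2 x hx
      exact ⟨m, subset_compl_iff_disjoint_right.2 hm⟩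
    · intro x hx
      obtain ⟨m, hm⟩ := h1 x (not_not.1 hx)
      exact ⟨m, disjoint_compl_right_iff_subset.2 hm⟩
    · exact subset_compl_iff_disjoint_left.2 h4
    · exact disjoint_compl_left_iff_subset.2 h3

lemma isCompact_nb (x : Om) (m : ℕ) : @IsCompact Om (top f) (nb f x m) := by
  letI := top f
  induction x using (wellFounded_lt (α := Om)).induction generalizing m with
  | _ x ih =>
    obtain ⟨W, h1, h2, -⟩ := (H x).shape
    rw [isCompact_iff_finite_subcover]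
    intro ι U hU hcov
    have hx : x ∈ nb f x m := mem_nb hDu (fun x _ => H x) (mem_univ x) m
    obtain ⟨i0, hi0⟩ := mem_iUnion.1 (hcov hx)
    obtain ⟨m', hm'⟩ := (isOpen_iff' H).1 (hU i0) x hi0
    have h3 : ∀ j, m ≤ j → ∃ t : Finset ι, W j ⊆ ⋃ i ∈ t, U i := by
      intro j hj
      have h4 : IsCompact (W j) := by
        rcases h2 j with h | ⟨β, hβ, k, h⟩
        · rw [h]
          exact isCompact_empty
        · rw [h]
          exact ih β hβ k
      refine isCompact_iff_finite_subcover.1 h4 U hU (Subset.trans ?_ hcov)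
      rw [h1]
      exact fun z hz => Or.inr (mem_iUnion₂.2 ⟨j, hj, hz⟩)
    classical
    choose! t ht using h3
    refine ⟨insert i0 ((Finset.Ico m m').biUnion t), ?_⟩
    intro z hz
    rw [h1] at hz
    rw [Finset.set_biUnion_insert]
    rcases hz with hz | hz
    · rw [mem_singleton_iff.1 hz]
      exact Or.inl hi0
    · obtain ⟨j, hj⟩ := mem_iUnion.1 hz
      obtain ⟨hmj, hj⟩ := mem_iUnion.1 hj
      rcases lt_or_ge j m' with h | h
      · right
        obtain ⟨i, hi⟩ := mem_iUnion.1 (ht j hmj hj)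
        obtain ⟨hi', hi⟩ := mem_iUnion.1 hi
        exact mem_iUnion₂.2 ⟨i, Finset.mem_biUnion.2 ⟨j, Finset.mem_Ico.2 ⟨hmj, h⟩, hi'⟩, hi⟩
      · left
        apply hm'
        rw [h1]
        exact Or.inr (mem_iUnion₂.2 ⟨j, h, hj⟩)

end main

/-- The main theorem. -/
theorem main (hd : Diamond) : ∃ (X : Type) (_ : TopologicalSpace X), T2Space X ∧ NormalSpace X ∧
    (∀ g : X → ℝ, Continuous g → (range g).Countable) ∧
    (∃ K : ℕ → Set X, (∀ n, IsClosed (K n)) ∧
      ∀ x y : X, (∀ n, x ∈ K n → y ∈ K n) → y = x) ∧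
    Uncountable X ∧ FirstCountableTopology X ∧ LocallyCompactSpace X ∧
    (∀ C D : Set X, IsClosed C → IsClosed D → Disjoint C D →
      ∃ V, IsClopen V ∧ C ⊆ V ∧ Disjoint V D) ∧
    (∀ x : X, ∃ U : Set X, IsOpen U ∧ x ∈ U ∧ U.Countable) := by
  classical
  obtain ⟨CC, DD, hCC, hDD, hguess⟩ := exists_guess_pair hd
  obtain ⟨s, hs1, hs2, hs3⟩ := exists_family hd
  obtain ⟨f, H⟩ := exists_f (s := s) (CC := CC) (DD := DD) hCC
  letI := top f
  have hnbo : ∀ x m, IsOpen (nb f x m) := fun x m => (isOpen_iff' H).2 fun y hy =>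
    nb_open hDu (fun x _ => H x) (mem_univ x) m y hy
  have hnbc : ∀ x m, IsClosed (nb f x m) := fun x m => (isClosed_iff' H).2 fun y hy =>
    nb_closed hDu (fun x _ => H x) (mem_univ x) m y (mem_univ y) hy
  have hnbx : ∀ x m, x ∈ nb f x m := fun x m => mem_nb hDu (fun x _ => H x) (mem_univ x) m
  have hsep : ∀ C D : Set Om, IsClosed C → IsClosed D → Disjoint C D →
      ∃ V, IsClopen V ∧ C ⊆ V ∧ Disjoint V D := by
    intro C D hC hD hCD
    obtain ⟨V, h1, h2, h3, h4⟩ := exists_clopen_sep' H hguess hs2 hs3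
      ((isClosed_iff' H).1 hC) ((isClosed_iff' H).1 hD) hCD
    exact ⟨V, ⟨(isClosed_iff' H).2 h2, (isOpen_iff' H).2 h1⟩, h3, h4⟩
  have hT2 : T2Space Om := by
    refine ⟨fun x y hxy => ?_⟩
    obtain ⟨m, m', h⟩ := nb_sep hDu (fun x _ => H x) (mem_univ x) (mem_univ y) hxy
    exact ⟨_, _, hnbo x m, hnbo y m', hnbx x m, hnbx y m', h⟩
  have hbasis : ∀ x : Om, (𝓝 x).HasBasis (fun _ : ℕ => True) (nb f x) := by
    intro x
    refine ⟨fun U => ⟨fun hU => ?_, ?_⟩⟩
    · obtain ⟨U', hU', hU'o, hxU'⟩ := mem_nhds_iff.1 hU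
      obtain ⟨m, hm⟩ := (isOpen_iff' H).1 hU'o x hxU'
      exact ⟨m, trivial, hm.trans hU'⟩
    · rintro ⟨m, -, hm⟩
      exact Filter.mem_of_superset ((hnbo x m).mem_nhds (hnbx x m)) hm
  refine ⟨Om, inferInstance, hT2, ?_, ?_, ?_, ?_, ?_, ?_, hsep, ?_⟩
  · refine ⟨fun C D hC hD hCD => ?_⟩
    obtain ⟨V, hV, h1, h2⟩ := hsep C D hC hD hCD
    exact ⟨V, Vᶜ, hV.isOpen, hV.isClosed.isOpen_compl, h1,
      subset_compl_iff_disjoint_left.2 h2, disjoint_compl_right⟩
  · intro g hg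
    let L : Set ℚ := {q | (g ⁻¹' Iic (q : ℝ)).Countable}
    let R : Set ℚ := {q | (g ⁻¹' Ici (q : ℝ)).Countable}
    let U : Set Om := (⋃ q ∈ L, g ⁻¹' Iic (q : ℝ)) ∪ ⋃ q ∈ R, g ⁻¹' Ici (q : ℝ)
    have hU : U.Countable := by
      refine Countable.union ?_ ?_
      · exact (to_countable L).biUnion fun q hq => hq
      · exact (to_countable R).biUnion fun q hq => hq
    have hlt : ∀ x y, x ∉ U → y ∉ U → ¬ g x < g y := by
      intro x y hx hy hxy
      obtain ⟨q, hq1, hq2⟩ := exists_rat_btwn hxy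
      obtain ⟨q', hq'1, hq'2⟩ := exists_rat_btwn hq2
      have h1 : q ∉ L := fun h => hx (Or.inl (mem_iUnion₂.2 ⟨q, h, hq1.le⟩))
      have h2 : q' ∉ R := fun h => hy (Or.inr (mem_iUnion₂.2 ⟨q', h, hq'2.le⟩))
      rcases one_countable H hguess hs2 hs3 ((isClosed_iff' H).1 (isClosed_Iic.preimage hg))
        ((isClosed_iff' H).1 (isClosed_Ici.preimage hg)) (C := g ⁻¹' Iic (q : ℝ))
        (D := g ⁻¹' Ici (q' : ℝ)) (by
          rw [disjoint_left]
          intro z hz hz'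
          exact absurd (hz'.trans hz) (not_le.2 hq'1)) with h | h
      · exact h1 h
      · exact h2 h
    by_cases hne : ∃ x, x ∉ U
    · obtain ⟨x0, hx0⟩ := hne
      refine ((hU.image g).insert (g x0)).mono ?_
      rintro _ ⟨y, rfl⟩
      by_cases hy : y ∈ U
      · exact Or.inr (mem_image_of_mem g hy)
      · left
        exact le_antisymm (not_lt.1 (hlt x0 y hx0 hy)) (not_lt.1 (hlt y x0 hy hx0))
    · push Not at hne
      refine (hU.image g).mono ?_
      rintro _ ⟨y, rfl⟩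
      exact mem_image_of_mem g (hne y)
  · refine ⟨fun n => {x | s x n = true}, fun n => (isClosed_iff' H).2 (Cl_real H n), ?_⟩
    intro x y hxy
    by_contra hne
    obtain ⟨n, hn, hn'⟩ := hs1 x y (Ne.symm hne)
    have h1 : s y n = true := hxy n hn
    rw [hn'] at h1
    exact absurd h1 (by simp)
  · rw [← not_countable_iff]
    intro h
    obtain ⟨b, hb⟩ := exists_bound_set (T := (univ : Set Om)) (to_countable _)
    exact absurd (hb b (mem_univ b)) (lt_irrefl _)
  · exact ⟨fun x => (hbasis x).isCountablyGenerated⟩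
  · refine ⟨fun x U hU => ?_⟩
    obtain ⟨m, -, hm⟩ := (hbasis x).mem_iff.1 hU
    exact ⟨nb f x m, (hnbo x m).mem_nhds (hnbx x m), hm, isCompact_nb H x m⟩
  · intro x
    refine ⟨nb f x 0, hnbo x 0, hnbx x 0, ?_⟩
    refine Countable.mono (nb_sub hDu (fun x _ => H x) (mem_univ x) 0) ?_
    rw [← Iio_insert]
    exact (countable_Iio' x).insert x

end Pool.Agent.R820.ES
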